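import Mathlib
import Pool.Agent.H14.FactParts

set_option autoImplicit false

namespace Pool.Agent.Results.MP_e74e95_nt.Counter

open Pool.Agent.H14.FactParts in
theorem result : ∃ m : ℕ, 2 ≤ m ∧ ∃ k : ℕ, m - 1 ≤ k ∧
    ∀ N : ℕ, ∃ n : ℕ, N ≤ n ∧ (-1) ^ n * S (U m) k n < 0 :=
  ⟨3, by norm_num, 2, by norm_num, main⟩

end Pool.Agent.Results.MP_e74e95_nt.Counter
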